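import Pool.Agent.Run7.h595.EA.Main

/-!
# Elementary amenable groups: kernels of locally finite Hirsch length

`C` is any class of groups with the closure properties `ClosedE C` (it contains `ℤ`, is closed under
subgroups, finite products, free products, overgroups of finite index and directed colimits, and
satisfies the extension criterion of the Farrell-Jones conjecture) which contains the solvable groups. All
this is published for the class of the groups which satisfy the K- and L-theoretic Farrell-Jones
conjecture with coefficients, also for wreath products with finite groups (Bartels, Farrell, Lück, Reich;
Wegner for the solvable groups). For the torsion-free groups in this class the assembly maps of the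
problem are isomorphisms.

**Theorem.** Let `N` be a normal subgroup of `G` with `G ⧸ N` in `C`. Suppose that

* all finitely generated subgroups of `N` have finite Hirsch length (`FinHirsch`): they have a finite
  series whose factors are torsion or infinite cyclic; and
* every nontrivial normal subgroup `M` of `G` inside `N` has a nontrivial torsion-free solvable factor
  group `M / M'` with `M'` normal in `G` (`Desc`); for instance `M` has a nonzero homomorphism to `ℚ`.

Then `G` is in `C`.

So `N` has a transfinite descending series of normal subgroups of `G` with torsion-free solvable
factors. `N` need not be virtually solvable, nor residually solvable: for instance `N` may be the group of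
the finitary unitriangular integral matrices with rows and columns indexed by a scattered linearly
ordered set, and `G` a group that acts on it by automorphisms of the ordered set. In the starting file
`DetectedKernels` the finitely generated subgroups of `N` meet a term `N^(k)`, `k` finite, of the derived
series trivially. `G` is elementary amenable if `G / N` is elementary amenable and if the torsion factors
are locally finite.

Proof. A chain of isolated subgroups of `N` (`x ^ m` in `L`, `m > 0`, implies `x` in `L`) is eventually
constant on each subgroup of finite Hirsch length (`EA.chain_stop`). So if `G / L` is in `C` for the
members `L` of a chain of isolated normal subgroups of `G` in `N`, and `M` is their intersection, then each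
finitely generated subgroup of `N / M` is mapped injectively to some `G / L`, and `G / M` is in `C` by the
criterion for locally detected kernels. By Zorn's lemma there is a minimal isolated normal subgroup `M`
with `G / M` in `C`, and the second assumption shows that it is trivial.
-/

set_option autoImplicit false

namespace Pool.Agent.Results.MP_ed9e76_gt.HirschKernels

open Pool.Agent.Y110.FJ (ClosedE)
open Run7.h595.EA

theorem result (C : ∀ (G : Type) [Group G], Prop) (hC : ClosedE C)
    (hsol : ∀ (S : Type) [Group S], Group.IsSolvable S → C S)
    (G : Type) [Group G] (N : Subgroup G) [N.Normal] (hQ : C (G ⧸ N))
    (hF : ∀ E : Set G, E.Finite → E ⊆ N → FinHirsch (Subgroup.closure E))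
    (hN : Desc N ∨ ∀ M : Subgroup G, M.Normal → M ≤ N → M ≠ ⊥ →
      ∃ f : M →* Multiplicative ℚ, f ≠ 1) : C G :=
  main hC hsol N hQ hF (hN.elim id desc_of_rat)

end Pool.Agent.Results.MP_ed9e76_gt.HirschKernels
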